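import Pool.Agent.Helper79.KS.Fix2

/-! The fixed point theorem for an arbitrary (discrete) set of indices; conditions for the relevant indices only. -/

set_option autoImplicit false
open Filter Topology
open scoped BoundedContinuousFunction

namespace Pool.Agent.Helper79.KS.Gen

variable {ι : Type*}

/-- value at the prime `p` -/
noncomputable def val (b : ℕ → ℝ) (w : ι → ℕ → ℝ) (t : ι → ℝ) (p : ℕ) : ℝ := b p + ∑' i, t i * w i p

/-- sum over the cell `i` -/
noncomputable def cellSum (b : ℕ → ℝ) (w : ι → ℕ → ℝ) (cl : ι → Finset ℕ) (t : ι → ℝ) (i : ι) : ℝ :=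
  ∑ n ∈ cl i, cm (val b w t) n

section

variable {b : ℕ → ℝ} {w : ι → ℕ → ℝ} {cl : ι → Finset ℕ} {G : ι → ℝ}

theorem summ (hw : ∀ i p, 0 ≤ w i p) (hsum : ∀ p, Summable (fun i => w i p)) {t : ι → ℝ} {C : ℝ}
    (ht : ∀ i, |t i| ≤ C) (p : ℕ) : Summable (fun i => t i * w i p) := by
  refine Summable.of_norm_bounded ((hsum p).mul_left C) fun i => ?_
  rw [Real.norm_eq_abs, abs_mul, abs_of_nonneg (hw i p)]
  exact mul_le_mul_of_nonneg_right (ht i) (hw i p)

theorem tsum_bound (hw : ∀ i p, 0 ≤ w i p) (hsum : ∀ p, Summable (fun i => w i p)) {t : ι → ℝ} {C : ℝ}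
    (ht : ∀ i, |t i| ≤ C) (p : ℕ) : |∑' i, t i * w i p| ≤ C * ∑' i, w i p := by
  have h1 := summ hw hsum ht p
  have h2 : ‖∑' i, t i * w i p‖ ≤ ∑' i, ‖t i * w i p‖ := norm_tsum_le_tsum_norm h1.norm
  rw [Real.norm_eq_abs] at h2
  refine h2.trans ?_
  rw [← tsum_mul_left]
  refine h1.norm.tsum_le_tsum (fun i => ?_) ((hsum p).mul_left C)
  rw [Real.norm_eq_abs, abs_mul, abs_of_nonneg (hw i p)]
  exact mul_le_mul_of_nonneg_right (ht i) (hw i p)

/-- the estimates for one cell -/
theorem cell_est [DecidableEq ι] (hb : ∀ p, 0 ≤ b p) (hw : ∀ i p, 0 ≤ w i p)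
    (hsum : ∀ p, Summable (fun i => w i p)) (i : ι)
    (hown : G i ≤ ∑ n ∈ cl i, lin b (w i) n)
    (hstar : ∑ n ∈ cl i, cm (fun p => b p + 2 * ∑' i, w i p) n ≤ 9 / 4 * G i)
    {t t' : ι → ℝ} {D : ℝ} (hD : 0 ≤ D) (ht : ∀ i, |t i| ≤ 1) (ht' : ∀ i, |t' i| ≤ 1)
    (htt : ∀ i, |t i - t' i| ≤ D) :
    |(cellSum b w cl t i - t i * ∑ n ∈ cl i, lin b (w i) n) -
        (cellSum b w cl t' i - t' i * ∑ n ∈ cl i, lin b (w i) n)| ≤ D / 8 * G i := by
  set ω : ℕ → ℝ := fun p => ∑' i, w i p with hω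
  set x : ℕ → ℝ := fun p => ∑' i, t i * w i p with hx
  set x' : ℕ → ℝ := fun p => ∑' i, t' i * w i p with hx'
  have haω : ∀ p, w i p ≤ ω p := fun p => (hsum p).le_tsum i fun j _ => hw j p
  have h1 : ∀ p, |x p| ≤ ω p := fun p => by
    have := tsum_bound hw hsum ht p
    rwa [one_mul] at this
  have h1' : ∀ p, |x' p| ≤ ω p := fun p => by
    have := tsum_bound hw hsum ht' p
    rwa [one_mul] at this
  have hsub : ∀ p, x p - x' p = ∑' i, (t i - t' i) * w i p := fun p => by
    rw [hx, hx']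
    simp only
    rw [← (summ hw hsum ht p).tsum_sub (summ hw hsum ht' p)]
    exact tsum_congr fun i => by ring
  have h2 : ∀ p, |x p - x' p| ≤ D * ω p := fun p => by
    rw [hsub p]
    exact tsum_bound hw hsum htt p
  have h3 : ∀ p, |(x p - t i * w i p) - (x' p - t' i * w i p)| ≤ D * (ω p - w i p) := fun p => by
    have e1 : (x p - t i * w i p) - (x' p - t' i * w i p) =
        ∑' j, (if j = i then 0 else (t j - t' j)) * w j p := by
      have e2 : (x p - t i * w i p) - (x' p - t' i * w i p) = (x p - x' p) - (t i - t' i) * w i p := by ring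
      rw [e2, hsub p, (summ hw hsum htt p).tsum_eq_add_tsum_ite i, add_sub_cancel_left]
      exact tsum_congr fun j => by split_ifs <;> ring
    have e3 : ω p - w i p = ∑' j, (if j = i then 0 else w j p) := by
      rw [hω]
      simp only
      rw [(hsum p).tsum_eq_add_tsum_ite i, add_sub_cancel_left]
    have hs : Summable (fun j => if j = i then 0 else w j p) := by
      refine Summable.of_nonneg_of_le (fun j => ?_) (fun j => ?_) (hsum p)
      · split_ifs
        · exact le_rfl
        · exact hw j p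
      · split_ifs
        · exact hw j p
        · exact le_rfl
    have hs2 : Summable (fun j => (if j = i then 0 else (t j - t' j)) * w j p) := by
      refine Summable.of_norm_bounded ((hsum p).mul_left D) fun j => ?_
      rw [Real.norm_eq_abs, abs_mul, abs_of_nonneg (hw j p)]
      refine mul_le_mul_of_nonneg_right ?_ (hw j p)
      split_ifs
      · simpa using hD
      · exact htt j
    rw [e1, e3, ← tsum_mul_left]
    refine (norm_tsum_le_tsum_norm hs2.norm).trans ?_
    refine hs2.norm.tsum_le_tsum (fun j => ?_) (hs.mul_left D)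
    rw [Real.norm_eq_abs, abs_mul, abs_of_nonneg (hw j p)]
    split_ifs
    · simp
    · exact mul_le_mul_of_nonneg_right (htt j) (hw j p)
  have key : ∀ n, |(cm (val b w t) n - t i * lin b (w i) n) - (cm (val b w t') n - t' i * lin b (w i) n)| ≤
      D / 2 * (cm (fun p => b p + 2 * ∑' i, w i p) n - cm b n - 2 * lin b (w i) n) := fun n =>
    (list_main (b := b) (a := w i) (ω := ω) (x := x) (x' := x') (t := t i) (t' := t' i) hb (hw i) haω hD h1 h1'
      h2 h3 n.primeFactorsList).2.2.2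
  unfold cellSum
  rw [Finset.mul_sum, Finset.mul_sum, ← Finset.sum_sub_distrib, ← Finset.sum_sub_distrib,
    ← Finset.sum_sub_distrib]
  refine (Finset.abs_sum_le_sum_abs _ _).trans ?_
  refine (Finset.sum_le_sum fun n _ => key n).trans ?_
  rw [← Finset.mul_sum, Finset.sum_sub_distrib, Finset.sum_sub_distrib, ← Finset.mul_sum]
  have c3 : 0 ≤ ∑ n ∈ cl i, cm b n := Finset.sum_nonneg fun n _ => cm_nonneg hb n
  calc D / 2 * (∑ n ∈ cl i, cm (fun p => b p + 2 * ∑' i, w i p) n -
        ∑ n ∈ cl i, cm b n - 2 * ∑ n ∈ cl i, lin b (w i) n) ≤ D / 2 * (G i / 4) :=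
        mul_le_mul_of_nonneg_left (by linarith) (by linarith)
    _ = D / 8 * G i := by ring

theorem cell_zero (hb : ∀ p, 0 ≤ b p) (hw : ∀ i p, 0 ≤ w i p) (hsum : ∀ p, Summable (fun i => w i p)) (i : ι)
    (hown : G i ≤ ∑ n ∈ cl i, lin b (w i) n)
    (hstar : ∑ n ∈ cl i, cm (fun p => b p + 2 * ∑' i, w i p) n ≤ 9 / 4 * G i) :
    |cellSum b w cl (fun _ => 0) i| ≤ G i / 4 := by
  have e0 : ∀ n, cm (val b w (fun _ => 0)) n = cm b n := fun n => by
    unfold cm val
    simp
  have hP : ∀ n, 0 ≤ cm b n := fun n => cm_nonneg hb n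
  unfold cellSum
  simp only [e0]
  rw [abs_of_nonneg (Finset.sum_nonneg fun n _ => hP n)]
  have h1 : ∀ n, cm b n + 2 * lin b (w i) n ≤ cm (fun p => b p + 2 * ∑' i, w i p) n := fun n =>
    list_low (b := b) (a := w i) (ω := fun p => ∑' i, w i p) hb (hw i)
      (fun p => (hsum p).le_tsum i fun j _ => hw j p) n.primeFactorsList
  have h2 := Finset.sum_le_sum (fun n (_ : n ∈ cl i) => h1 n)
  rw [Finset.sum_add_distrib, ← Finset.mul_sum] at h2
  linarith

end

/-- **Existence of the coefficients** (arbitrary discrete index set; conditions for the relevant indices). -/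
theorem exists_coeff [TopologicalSpace ι] [DiscreteTopology ι] (P : ι → Prop) (b : ℕ → ℝ) (w : ι → ℕ → ℝ)
    (cl : ι → Finset ℕ) (G τ : ι → ℝ)
    (hb : ∀ p, 0 ≤ b p) (hw : ∀ i p, 0 ≤ w i p) (hsum : ∀ p, Summable (fun i => w i p))
    (hG : ∀ i, P i → 0 < G i)
    (hown : ∀ i, P i → G i ≤ ∑ n ∈ cl i, lin b (w i) n)
    (hstar : ∀ i, P i → ∑ n ∈ cl i, cm (fun p => b p + 2 * ∑' i, w i p) n ≤ 9 / 4 * G i)
    (hτ : ∀ i, P i → |τ i| ≤ G i / 2) :
    ∃ t : ι → ℝ, (∀ i, |t i| ≤ 1) ∧ ∀ i, P i → cellSum b w cl t i = τ i := by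
  classical
  set L : ι → ℝ := fun i => ∑ n ∈ cl i, lin b (w i) n with hL
  have hL0 : ∀ i, P i → 0 < L i := fun i hi => (hG i hi).trans_le (hown i hi)
  -- the map
  set Φ : (ι → ℝ) → ι → ℝ := fun t i => if P i then (τ i - (cellSum b w cl t i - t i * L i)) / L i else 0
    with hΦ
  have hest : ∀ t : ι → ℝ, (∀ i, |t i| ≤ 1) → ∀ i, |Φ t i| ≤ 7 / 8 := by
    intro t ht i
    rw [hΦ]
    simp only
    split_ifs with hi
    · have h1 := cell_est (G := G) hb hw hsum i (hown i hi) (hstar i hi) (t := t) (t' := fun _ => 0)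
        zero_le_one ht (fun _ => by simp) (fun i => by simpa using ht i)
      have h2 := cell_zero (G := G) hb hw hsum i (hown i hi) (hstar i hi)
      simp only [zero_mul, sub_zero] at h1
      have h3 : |cellSum b w cl t i - t i * L i| ≤ G i / 8 + G i / 4 := by
        have := abs_sub_abs_le_abs_sub (cellSum b w cl t i - t i * L i) (cellSum b w cl (fun _ => 0) i)
        have e : (1 : ℝ) / 8 * G i = G i / 8 := by ring
        rw [e] at h1
        linarith
      rw [abs_div, abs_of_pos (hL0 i hi), div_le_iff₀ (hL0 i hi)]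
      have h4 : |τ i - (cellSum b w cl t i - t i * L i)| ≤ |τ i| + |cellSum b w cl t i - t i * L i| :=
        abs_sub _ _
      have h5 := hτ i hi
      have h6 : G i ≤ L i := hown i hi
      linarith
    · norm_num
  have hlip : ∀ t t' : ι → ℝ, (∀ i, |t i| ≤ 1) → (∀ i, |t' i| ≤ 1) → ∀ D : ℝ, 0 ≤ D →
      (∀ i, |t i - t' i| ≤ D) → ∀ i, |Φ t i - Φ t' i| ≤ D / 8 := by
    intro t t' ht ht' D hD htt i
    rw [hΦ]
    simp only
    split_ifs with hi
    · have h1 := cell_est (G := G) hb hw hsum i (hown i hi) (hstar i hi) hD ht ht' htt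
      rw [div_sub_div_same, abs_div, abs_of_pos (hL0 i hi), div_le_iff₀ (hL0 i hi)]
      have e : τ i - (cellSum b w cl t i - t i * L i) - (τ i - (cellSum b w cl t' i - t' i * L i)) =
          -((cellSum b w cl t i - t i * L i) - (cellSum b w cl t' i - t' i * L i)) := by ring
      rw [e, abs_neg]
      refine h1.trans ?_
      exact mul_le_mul_of_nonneg_left (hown i hi) (by linarith)
    · simp
      linarith
  -- the contraction of the space of bounded functions
  have hbd : ∀ t : ι →ᵇ ℝ, ∀ i, ‖Φ (fun j => clip (t j)) i‖ ≤ 7 / 8 := fun t i => by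
    rw [Real.norm_eq_abs]
    exact hest _ (fun j => clip_abs _) i
  set Ψ : (ι →ᵇ ℝ) → (ι →ᵇ ℝ) := fun t =>
    BoundedContinuousFunction.ofNormedAddCommGroupDiscrete (Φ (fun j => clip (t j))) (7 / 8) (hbd t) with hΨ
  have hcon : ContractingWith (1 / 8) Ψ := by
    refine ⟨by norm_num, LipschitzWith.of_dist_le_mul fun t t' => ?_⟩
    rw [BoundedContinuousFunction.dist_le (by positivity)]
    intro i
    have h1 := hlip (fun j => clip (t j)) (fun j => clip (t' j)) (fun j => clip_abs _) (fun j => clip_abs _)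
      (dist t t') dist_nonneg (fun j => (clip_lip _ _).trans (by
        have := BoundedContinuousFunction.dist_coe_le_dist (f := t) (g := t') j
        rwa [Real.dist_eq] at this)) i
    rw [Real.dist_eq]
    have e : ((1 / 8 : NNReal) : ℝ) * dist t t' = dist t t' / 8 := by
      push_cast; ring
    rw [e]
    exact h1
  set T := ContractingWith.fixedPoint Ψ hcon with hT
  have hfix : Ψ T = T := hcon.fixedPoint_isFixedPt
  have hTi : ∀ i, Φ (fun j => clip (T j)) i = T i := fun i => by
    have := congrArg (fun g : ι →ᵇ ℝ => g i) hfix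
    exact this
  have hT1 : ∀ i, |T i| ≤ 1 := fun i => by
    rw [← hTi i]
    exact (hest _ (fun j => clip_abs _) i).trans (by norm_num)
  have hclip : (fun j => clip (T j)) = fun j => T j := funext fun j => clip_of (hT1 j)
  refine ⟨fun j => T j, hT1, fun i hi => ?_⟩
  have h1 := hTi i
  rw [hclip] at h1
  rw [hΦ] at h1
  simp only [if_pos hi] at h1
  rw [div_eq_iff (hL0 i hi).ne'] at h1
  linarith

end Pool.Agent.Helper79.KS.Gen
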