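import Pool.Agent.Helper16.KS.St
import Pool.Agent.Helper79.KS.FixGen

/-! Module FP of project KS: the fixed point. -/

set_option autoImplicit false
open scoped Classical
open Filter Topology

namespace Pool.Agent.Helper79.KS.FPM

open Pool.Agent.Helper16.KS
open Pool.Agent.Helper16.KS.Sys

variable (S : Sys)

theorem CM_eq (g : ℕ → ℝ) (n : ℕ) : CM g n = cm g n := rfl

/-! ### geometry of the cells -/

theorem ec_le (k : ℕ) : ec S.d k ≤ k := by
  unfold ec
  have h0 : (k : ℝ) * (1/2 - S.d) ≤ k := by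
    have := S.d_pos
    have hk : (0 : ℝ) ≤ k := Nat.cast_nonneg k
    nlinarith
  calc ⌊(k : ℝ) * (1/2 - S.d)⌋₊ ≤ ⌊(k : ℝ)⌋₊ := Nat.floor_le_floor h0
    _ = k := Nat.floor_natCast k

theorem nc_mul (k : ℕ) : nc S.d k * 2 ^ ec S.d k = 2 ^ k := by
  unfold nc
  rw [← pow_add, Nat.sub_add_cancel (ec_le S k)]

theorem cell_ge {k j n : ℕ} (hn : n ∈ cell S.d k j) : 2 ^ k ≤ n := by
  unfold cell at hn
  rw [Finset.mem_Ico] at hn
  exact le_trans (Nat.le_add_right _ _) hn.1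

theorem cell_lt {k j n : ℕ} (hj : j < nc S.d k) (hn : n ∈ cell S.d k j) : n < 2 ^ (k + 1) := by
  unfold cell at hn
  rw [Finset.mem_Ico] at hn
  have h1 : (j + 1) * 2 ^ ec S.d k ≤ 2 ^ k := by
    rw [← nc_mul S k]
    exact Nat.mul_le_mul_right _ hj
  have h2 : 2 ^ (k + 1) = 2 ^ k + 2 ^ k := by ring
  omega

theorem cell_log {k j n : ℕ} (hj : j < nc S.d k) (hn : n ∈ cell S.d k j) : Nat.log 2 n = k :=
  Nat.log_eq_of_pow_le_of_lt_pow (cell_ge S hn) (cell_lt S hj hn)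

theorem cell_idx {k j n : ℕ} (hj : j < nc S.d k) (hn : n ∈ cell S.d k j) : S.idx n = j := by
  unfold idx
  rw [cell_log S hj hn]
  unfold cell at hn
  rw [Finset.mem_Ico] at hn
  have hp : 0 < 2 ^ ec S.d k := by positivity
  apply Nat.div_eq_of_lt_le
  · omega
  · have : (j + 1) * 2 ^ ec S.d k = j * 2 ^ ec S.d k + 2 ^ ec S.d k := by ring
    omega

theorem cell_cix {k0 k j n : ℕ} (hk : k0 ≤ k) (hj : j < nc S.d k) (hn : n ∈ cell S.d k j) :
    S.cix k0 n = (k, j) := by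
  unfold cix
  have h1 : 2 ^ k0 ≤ 2 ^ k := Nat.pow_le_pow_right (by norm_num) hk
  have h2 := cell_ge S hn
  rw [if_neg (by omega), cell_log S hj hn, cell_idx S hj hn]

/-! ### the weights -/

/-- control part of the weight of the cell `i` -/
noncomputable def wc (k0 : ℕ) (R : Set ℕ) (i : ℕ × ℕ) (p : ℕ) : ℝ :=
  if k0 ≤ i.1 ∧ i.1 < top p ∧ i.2 ∈ S.badc i.1 then S.cw R i.1 i.2 p else 0

/-- ordinary part of the weight of the cell `i` -/
noncomputable def wd' (k0 : ℕ) (i : ℕ × ℕ) (p : ℕ) : ℝ := if i = S.cix k0 p then S.ordw k0 p else 0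

/-- weight of the cell `i` at the prime `p` -/
noncomputable def wt (k0 : ℕ) (R : Set ℕ) (i : ℕ × ℕ) (p : ℕ) : ℝ := wd' S k0 i p + wc S k0 R i p

/-- finite set containing the support -/
noncomputable def sup (k0 : ℕ) (p : ℕ) : Finset (ℕ × ℕ) :=
  insert (S.cix k0 p) ((Finset.Ico k0 (top p)) ×ˢ (Finset.range (2 ^ top p)))

theorem badc_lt {k j : ℕ} (h : j ∈ S.badc k) : j < nc S.d k := by
  unfold badc at h
  rw [Finset.mem_filter, Finset.mem_range] at h
  exact h.1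

theorem badc_bad {k j : ℕ} (h : j ∈ S.badc k) : S.bad k j := by
  unfold badc at h
  rw [Finset.mem_filter] at h
  exact h.2

theorem badc_sub {k T : ℕ} (hk : k < T) : S.badc k ⊆ Finset.range (2 ^ T) := by
  intro j hj
  have h1 := badc_lt S hj
  rw [Finset.mem_range]
  have h2 : nc S.d k ≤ 2 ^ T := by
    unfold nc
    exact Nat.pow_le_pow_right (by norm_num) (by omega)
  omega

theorem wt_support (k0 : ℕ) (R : Set ℕ) (p : ℕ) (i : ℕ × ℕ) (hi : i ∉ sup S k0 p) : wt S k0 R i p = 0 := by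
  unfold sup at hi
  rw [Finset.mem_insert, not_or, Finset.mem_product] at hi
  unfold wt wd' wc
  rw [if_neg hi.1, zero_add, if_neg]
  rintro ⟨h1, h2, h3⟩
  exact hi.2 ⟨Finset.mem_Ico.2 ⟨h1, h2⟩, badc_sub S h2 h3⟩

theorem tsum_wt (k0 : ℕ) (R : Set ℕ) (t : ℕ × ℕ → ℝ) (p : ℕ) :
    ∑' i, t i * wt S k0 R i p = t (S.cix k0 p) * S.ordw k0 p +
      ∑ k ∈ Finset.Ico k0 (top p), ∑ j ∈ S.badc k, t (k, j) * S.cw R k j p := by
  have hA : ∑' i, t i * wd' S k0 i p = t (S.cix k0 p) * S.ordw k0 p := by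
    rw [tsum_eq_single (S.cix k0 p)]
    · unfold wd'
      rw [if_pos rfl]
    · intro i hi
      unfold wd'
      rw [if_neg hi, mul_zero]
  have hs1 : Summable (fun i => t i * wd' S k0 i p) :=
    summable_of_ne_finset_zero (s := {S.cix k0 p}) (fun i hi => by
      unfold wd'
      rw [if_neg (by simpa using hi), mul_zero])
  have hz : ∀ i ∉ (Finset.Ico k0 (top p)) ×ˢ (Finset.range (2 ^ top p)), t i * wc S k0 R i p = 0 := by
    intro i hi
    rw [Finset.mem_product] at hi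
    unfold wc
    rw [if_neg, mul_zero]
    rintro ⟨h1, h2, h3⟩
    exact hi ⟨Finset.mem_Ico.2 ⟨h1, h2⟩, badc_sub S h2 h3⟩
  have hs2 : Summable (fun i => t i * wc S k0 R i p) := summable_of_ne_finset_zero hz
  have hB : ∑' i, t i * wc S k0 R i p =
      ∑ k ∈ Finset.Ico k0 (top p), ∑ j ∈ S.badc k, t (k, j) * S.cw R k j p := by
    rw [tsum_eq_sum hz, Finset.sum_product]
    refine Finset.sum_congr rfl fun k hk => ?_
    rw [Finset.mem_Ico] at hk
    rw [← Finset.sum_subset (badc_sub S hk.2)]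
    · refine Finset.sum_congr rfl fun j hj => ?_
      unfold wc
      rw [if_pos ⟨hk.1, hk.2, hj⟩]
    · intro j _ hj
      unfold wc
      rw [if_neg (fun h => hj h.2.2), mul_zero]
  rw [← hA, ← hB, ← hs1.tsum_add hs2]
  refine tsum_congr fun i => ?_
  unfold wt
  ring

theorem summ_wt (k0 : ℕ) (R : Set ℕ) (p : ℕ) : Summable (fun i => wt S k0 R i p) :=
  summable_of_ne_finset_zero (wt_support S k0 R p)

theorem val_eq (k0 : ℕ) (R : Set ℕ) (t : ℕ × ℕ → ℝ) : Gen.val (S.bR R) (wt S k0 R) t = S.fp k0 R t := by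
  funext p
  unfold Gen.val fp
  rw [tsum_wt]
  ring

theorem W_eq (k0 : ℕ) (R : Set ℕ) (n : ℕ) :
    cm (fun p => S.bR R p + 2 * ∑' i, wt S k0 R i p) n = S.W k0 R n := by
  unfold W
  rw [CM_eq]
  congr 1
  funext p
  have h := tsum_wt S k0 R (fun _ => 1) p
  simp only [one_mul] at h
  rw [h]
  unfold Wp ctl
  ring

/-! ### positivity -/

theorem base_nonneg (m : ℕ) : 0 ≤ S.base m := Real.rpow_nonneg (Nat.cast_nonneg m) _

theorem base_pos {m : ℕ} (hm : m ≠ 0) : 0 < S.base m :=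
  Real.rpow_pos_of_pos (Nat.cast_pos.2 (Nat.pos_of_ne_zero hm)) _

theorem pr_pos {m : ℕ} (hm : m ≠ 0) : 0 < S.pr m :=
  Real.rpow_pos_of_pos (Nat.cast_pos.2 (Nat.pos_of_ne_zero hm)) _

theorem pr_nonneg (m : ℕ) : 0 ≤ S.pr m := Real.rpow_nonneg (Nat.cast_nonneg m) _

theorem bR_nonneg (R : Set ℕ) (p : ℕ) : 0 ≤ S.bR R p := by
  unfold bR
  split_ifs
  · exact base_nonneg S p
  · exact le_rfl

theorem G_pos {k : ℕ} (hk : 1 ≤ k) : 0 < S.G k := by
  unfold G
  have : (0 : ℝ) < k := by exact_mod_cast hk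
  have h2 : (0 : ℝ) < (2 : ℝ) ^ ((S.s - 1) * (k : ℝ)) := Real.rpow_pos_of_pos (by norm_num) _
  positivity

theorem G_nonneg (k : ℕ) : 0 ≤ S.G k := by
  unfold G
  have h2 : (0 : ℝ) ≤ (2 : ℝ) ^ ((S.s - 1) * (k : ℝ)) := Real.rpow_nonneg (by norm_num) _
  positivity

theorem phi0_nonneg (k0 : ℕ) : 0 ≤ S.phi0 k0 := by
  unfold phi0
  have h2 : (0 : ℝ) ≤ (2 : ℝ) ^ ((S.s - 1) * (k0 : ℝ)) := Real.rpow_nonneg (by norm_num) _
  positivity

theorem ordw_nonneg (k0 p : ℕ) : 0 ≤ S.ordw k0 p := by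
  unfold ordw
  split_ifs
  · exact le_rfl
  · exact phi0_nonneg S k0
  · exact le_rfl
  · exact div_nonneg (G_nonneg S _) (Nat.cast_nonneg _)

theorem NN_nonneg (R : Set ℕ) (k j : ℕ) : 0 ≤ S.NN R k j := by
  unfold NN
  exact Finset.sum_nonneg fun x _ => div_nonneg zero_le_one (pr_nonneg S _)

theorem wo_nonneg (R : Set ℕ) (k j m : ℕ) : 0 ≤ S.wo R k j m := by
  unfold wo
  exact div_nonneg (G_nonneg S k) (mul_nonneg (mul_nonneg (NN_nonneg S R k j) (pr_nonneg S m)) (base_nonneg S m))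

theorem cw_nonneg (R : Set ℕ) (k j q : ℕ) : 0 ≤ S.cw R k j q := by
  unfold cw
  exact Finset.sum_nonneg fun x _ => wo_nonneg S R k j _

theorem wd'_nonneg (k0 : ℕ) (i : ℕ × ℕ) (p : ℕ) : 0 ≤ wd' S k0 i p := by
  unfold wd'
  split_ifs
  · exact ordw_nonneg S k0 p
  · exact le_rfl

theorem wc_nonneg (k0 : ℕ) (R : Set ℕ) (i : ℕ × ℕ) (p : ℕ) : 0 ≤ wc S k0 R i p := by
  unfold wc
  split_ifs
  · exact cw_nonneg S R _ _ p
  · exact le_rfl

theorem wt_nonneg (k0 : ℕ) (R : Set ℕ) (i : ℕ × ℕ) (p : ℕ) : 0 ≤ wt S k0 R i p :=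
  add_nonneg (wd'_nonneg S k0 i p) (wc_nonneg S k0 R i p)

/-! ### the base weight of a product of elements of `R` -/

theorem cm_bR {R : Set ℕ} {m : ℕ} (hm : m ≠ 0) (hR : inR R m) : cm (S.bR R) m = S.base m := by
  have h1 : m.primeFactorsList.map (S.bR R) =
      m.primeFactorsList.map (fun p : ℕ => ((p : ℕ) : ℝ) ^ (-(1/2 + S.del))) := by
    apply List.map_congr_left
    intro p hp
    have h2 := Nat.prime_of_mem_primeFactorsList hp
    have h3 := Nat.dvd_of_mem_primeFactorsList hp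
    unfold bR
    rw [if_pos (hR p h2 h3)]
    rfl
  unfold cm
  rw [h1]
  have h2 := Real.list_prod_map_rpow' (m.primeFactorsList) (fun p : ℕ => (p : ℝ))
    (fun i _ => Nat.cast_nonneg i) (-(1/2 + S.del))
  rw [h2]
  unfold base
  congr 1
  have h3 := Nat.prod_primeFactorsList hm
  have h4 : ((m.primeFactorsList.prod : ℕ) : ℝ) = (m.primeFactorsList.map (fun p : ℕ => (p : ℝ))).prod := by
    rw [Nat.cast_list_prod]
  rw [← h4, h3]

/-! ### the own parts -/

theorem own_init (k0 : ℕ) (hk0 : 3 ≤ k0) (R : Set ℕ) :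
    S.G0 k0 ≤ ∑ n ∈ Finset.Ico 1 (2 ^ k0), lin (S.bR R) (wt S k0 R (0, 0)) n := by
  have h1 : (Finset.Ico (2 ^ (k0 - 1)) (2 ^ k0)).filter Nat.Prime ⊆ Finset.Ico 1 (2 ^ k0) := by
    intro n hn
    rw [Finset.mem_filter, Finset.mem_Ico] at hn
    rw [Finset.mem_Ico]
    exact ⟨hn.2.one_lt.le, hn.1.2⟩
  refine le_trans ?_ (Finset.sum_le_sum_of_subset_of_nonneg h1 fun n _ _ =>
    lin_nonneg (bR_nonneg S R) (wt_nonneg S k0 R _) n)
  have h2 : ∀ n ∈ (Finset.Ico (2 ^ (k0 - 1)) (2 ^ k0)).filter Nat.Prime,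
      S.phi0 k0 ≤ lin (S.bR R) (wt S k0 R (0, 0)) n := by
    intro n hn
    rw [Finset.mem_filter, Finset.mem_Ico] at hn
    rw [lin_prime _ _ hn.2]
    unfold wt
    have h3 : wd' S k0 (0, 0) n = S.phi0 k0 := by
      unfold wd' cix ordw
      rw [if_pos hn.1.2, if_pos rfl, if_neg (by omega), if_pos hn.1.2]
    rw [h3]
    have := wc_nonneg S k0 R (0, 0) n
    linarith
  refine le_trans (le_of_eq ?_) (Finset.card_nsmul_le_sum _ _ _ h2)
  unfold G0
  rw [nsmul_eq_mul]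
  ring

theorem G0_pos (k0 : ℕ) (hk0 : 3 ≤ k0) : 0 < S.G0 k0 := by
  unfold G0
  apply mul_pos
  · unfold phi0
    have h2 : (0 : ℝ) < (2 : ℝ) ^ ((S.s - 1) * (k0 : ℝ)) := Real.rpow_pos_of_pos (by norm_num) _
    have : (0 : ℝ) < k0 := by
      have : 0 < k0 := by omega
      exact_mod_cast this
    positivity
  · rw [Nat.cast_pos, Finset.card_pos]
    obtain ⟨p, hp, h1, h2⟩ := Nat.exists_prime_lt_and_le_two_mul (2 ^ (k0 - 1)) (by positivity)
    have h3 : 2 * 2 ^ (k0 - 1) = 2 ^ k0 := by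
      rw [← pow_succ', Nat.sub_add_cancel (by omega)]
    refine ⟨p, Finset.mem_filter.2 ⟨Finset.mem_Ico.2 ⟨h1.le, ?_⟩, hp⟩⟩
    rw [h3] at h2
    refine lt_of_le_of_ne h2 fun h => ?_
    rw [h] at hp
    exact Nat.Prime.not_prime_pow (by omega) hp

theorem own_good (k0 : ℕ) (hk0 : 3 ≤ k0) (hK : S.K ≤ k0) (R : Set ℕ) {k j : ℕ} (hk : k0 ≤ k)
    (hj : j < nc S.d k) (hb : ¬ S.bad k j) :
    S.G k ≤ ∑ n ∈ cell S.d k j, lin (S.bR R) (wt S k0 R (k, j)) n := by
  have hk1 : 0 < k := by omega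
  have hn0 : (0 : ℝ) < npr S.d k j := by
    have h1 := S.good k (hK.trans hk) j hj hb
    refine lt_of_lt_of_le ?_ h1
    have := S.c1_pos
    have : (0 : ℝ) < k := by exact_mod_cast hk1
    positivity
  have h1 : (cell S.d k j).filter Nat.Prime ⊆ cell S.d k j := Finset.filter_subset _ _
  refine le_trans ?_ (Finset.sum_le_sum_of_subset_of_nonneg h1 fun n _ _ =>
    lin_nonneg (bR_nonneg S R) (wt_nonneg S k0 R _) n)
  have h2 : ∀ n ∈ (cell S.d k j).filter Nat.Prime,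
      S.G k / npr S.d k j ≤ lin (S.bR R) (wt S k0 R (k, j)) n := by
    intro n hn
    rw [Finset.mem_filter] at hn
    rw [lin_prime _ _ hn.2]
    unfold wt
    have h3 : wd' S k0 (k, j) n = S.G k / npr S.d k j := by
      unfold wd'
      rw [cell_cix S hk hj hn.1, if_pos rfl]
      unfold ordw
      have h4 := cell_ge S hn.1
      have h5 : 2 ^ k0 ≤ 2 ^ k := Nat.pow_le_pow_right (by norm_num) hk
      have h6 : 2 ^ (k0 - 1) ≤ 2 ^ k0 := Nat.pow_le_pow_right (by norm_num) (by omega)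
      rw [if_neg (by omega), if_neg (by omega), cell_log S hj hn.1, cell_idx S hj hn.1, if_neg hb]
    rw [h3]
    have := wc_nonneg S k0 R (k, j) n
    linarith
  refine le_trans (le_of_eq ?_) (Finset.card_nsmul_le_sum _ _ _ h2)
  rw [nsmul_eq_mul]
  have : (((cell S.d k j).filter Nat.Prime).card : ℝ) = npr S.d k j := rfl
  rw [this, mul_div_cancel₀ _ hn0.ne']

theorem lt_top {k q : ℕ} (h : (2 : ℝ) ^ ((k : ℝ) / 3) ≤ q) : k < top q := by
  unfold top
  have h1 : q < 2 ^ (Nat.log 2 q + 1) := Nat.lt_pow_succ_log_self (by norm_num) q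
  have h2 : (q : ℝ) < (2 : ℝ) ^ ((Nat.log 2 q + 1 : ℕ) : ℝ) := by
    rw [Real.rpow_natCast]
    exact_mod_cast h1
  have h3 := (Real.rpow_lt_rpow_left_iff (by norm_num : (1 : ℝ) < 2)).1 (h.trans_lt h2)
  have h4 : (k : ℝ) < 3 * ((Nat.log 2 q + 1 : ℕ) : ℝ) := by linarith
  exact_mod_cast h4

theorem own_bad (k0 : ℕ) (hk0 : 3 ≤ k0) (hK : S.K ≤ k0) (R : Set ℕ) {k j : ℕ} (hk : k0 ≤ k)
    (hj : j ∈ S.badc k) (hNN : 0 < S.NN R k j) :
    S.G k ≤ ∑ n ∈ cell S.d k j, lin (S.bR R) (wt S k0 R (k, j)) n := by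
  have hjn := badc_lt S hj
  have hbad := badc_bad S hj
  have hcand : ∀ x ∈ S.act R k j, x.1.Prime ∧ (2 : ℝ) ^ ((k : ℝ) / 3) ≤ x.1 ∧ 1 < x.2 ∧
      x.1 * x.2 ∈ cell S.d k j ∧ inR R x.2 := by
    intro x hx
    unfold act at hx
    rw [Finset.mem_filter] at hx
    have h := S.cand k (hK.trans hk) j hjn hbad x hx.1
    exact ⟨h.1, h.2.1, h.2.2.2.1, h.2.2.2.2.1, hx.2⟩
  have hinj : Set.InjOn (fun x : ℕ × ℕ => x.1 * x.2) (S.act R k j : Set (ℕ × ℕ)) := by
    intro x hx y hy hxy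
    have hx' := Finset.mem_coe.1 hx
    have hy' := Finset.mem_coe.1 hy
    unfold act at hx' hy'
    rw [Finset.mem_filter] at hx' hy'
    exact S.inj k (hK.trans hk) j hjn hbad x hx'.1 y hy'.1 hxy
  have h1 : (S.act R k j).image (fun x : ℕ × ℕ => x.1 * x.2) ⊆ cell S.d k j := by
    intro n hn
    rw [Finset.mem_image] at hn
    obtain ⟨x, hx, rfl⟩ := hn
    exact (hcand x hx).2.2.2.1
  refine le_trans ?_ (Finset.sum_le_sum_of_subset_of_nonneg h1 fun n _ _ =>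
    lin_nonneg (bR_nonneg S R) (wt_nonneg S k0 R _) n)
  rw [Finset.sum_image hinj]
  have h2 : ∀ x ∈ S.act R k j, S.G k / S.NN R k j * (1 / S.pr x.2) ≤
      lin (S.bR R) (wt S k0 R (k, j)) (x.1 * x.2) := by
    intro x hx
    obtain ⟨g1, g2, g3, g4, g5⟩ := hcand x hx
    have hm : x.2 ≠ 0 := by omega
    refine le_trans ?_ (lin_ge (bR_nonneg S R) (wt_nonneg S k0 R (k, j)) g1 hm)
    rw [cm_bR S hm g5]
    have h3 : S.wo R k j x.2 ≤ wt S k0 R (k, j) x.1 := by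
      unfold wt
      have h4 := wd'_nonneg S k0 (k, j) x.1
      have h5 : wc S k0 R (k, j) x.1 = S.cw R k j x.1 := by
        unfold wc
        rw [if_pos ⟨hk, lt_top g2, hj⟩]
      have h6 : S.wo R k j x.2 ≤ S.cw R k j x.1 := by
        unfold cw
        exact Finset.single_le_sum (f := fun x : ℕ × ℕ => S.wo R k j x.2) (fun y _ => wo_nonneg S R k j _)
          (Finset.mem_filter.2 ⟨hx, rfl⟩)
      rw [h5]
      linarith
    refine le_trans (le_of_eq ?_) (mul_le_mul_of_nonneg_right h3 (base_nonneg S _))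
    unfold wo
    have e1 := (base_pos S hm).ne'
    have e2 := (pr_pos S hm).ne'
    have e3 := hNN.ne'
    field_simp
  refine le_trans (le_of_eq ?_) (Finset.sum_le_sum h2)
  rw [← Finset.mul_sum]
  have : ∑ x ∈ S.act R k j, 1 / S.pr x.2 = S.NN R k j := rfl
  rw [this, div_mul_cancel₀ _ hNN.ne']

/-- **Module FP.** -/
theorem fp : FP := by
  intro S k0 hk0 hK R hR hNN hstar
  set P : ℕ × ℕ → Prop := fun i => i = (0, 0) ∨ (k0 ≤ i.1 ∧ i.2 < nc S.d i.1) with hP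
  set cl : ℕ × ℕ → Finset ℕ := fun i => if i = (0, 0) then Finset.Ico 1 (2 ^ k0) else cell S.d i.1 i.2
    with hcl
  set G : ℕ × ℕ → ℝ := fun i => if i = (0, 0) then S.G0 k0 else S.G i.1 with hGdef
  have hne : ∀ k j : ℕ, k0 ≤ k → ((k, j) : ℕ × ℕ) ≠ (0, 0) := by
    intro k j hk h
    rw [Prod.mk.injEq] at h
    omega
  have hG : ∀ i, P i → 0 < G i := by
    intro i hi
    rw [hGdef]
    simp only
    split_ifs with h
    · exact G0_pos S k0 hk0
    · rcases hi with hi | hi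
      · exact absurd hi h
      · exact G_pos S (by omega)
  have hown : ∀ i, P i → G i ≤ ∑ n ∈ cl i, lin (S.bR R) (wt S k0 R i) n := by
    intro i hi
    rw [hGdef, hcl]
    simp only
    split_ifs with h
    · rw [h]
      exact own_init S k0 hk0 R
    · rcases hi with hi | hi
      · exact absurd hi h
      · obtain ⟨k, j⟩ := i
        by_cases hb : S.bad k j
        · have hj : j ∈ S.badc k := by
            unfold badc
            exact Finset.mem_filter.2 ⟨Finset.mem_range.2 hi.2, hb⟩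
          exact own_bad S k0 hk0 hK R hi.1 hj (hNN k hi.1 j hj)
        · exact own_good S k0 hk0 hK R hi.1 hi.2 hb
  have hst : ∀ i, P i → ∑ n ∈ cl i, cm (fun p => S.bR R p + 2 * ∑' i, wt S k0 R i p) n ≤ 9 / 4 * G i := by
    intro i hi
    have e : (9 : ℝ) / 4 = 2 + 1 / 4 := by norm_num
    rw [hGdef, hcl, e]
    simp only [W_eq]
    split_ifs with h
    · exact hstar.1
    · rcases hi with hi | hi
      · exact absurd hi h
      · exact hstar.2 i.1 hi.1 i.2 hi.2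
  obtain ⟨t, ht, h0⟩ := Gen.exists_coeff P (S.bR R) (wt S k0 R) cl G (fun _ => 0) (bR_nonneg S R)
    (wt_nonneg S k0 R) (summ_wt S k0 R) hG hown hst (fun i hi => by
      have := hG i hi
      simp only [abs_zero]
      linarith)
  refine ⟨t, ht, ?_, ?_⟩
  · have h := h0 (0, 0) (Or.inl rfl)
    unfold Gen.cellSum at h
    rw [val_eq, hcl] at h
    simp only [if_true] at h
    exact h
  · intro k hk j hj
    have h := h0 (k, j) (Or.inr ⟨hk, hj⟩)
    unfold Gen.cellSum at h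
    rw [val_eq, hcl] at h
    simp only [if_neg (hne k j hk)] at h
    exact h

end Pool.Agent.Helper79.KS.FPM
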