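import Mathlib

/-! The fixed point theorem of the construction for MP_768c9c_nt (S17468): the STAR inequality gives the function.
`b p` is the base weight of the prime `p` (a fixed value), `w i p` is the weight of the cell `i` at the prime `p`;
the function is `b p + ∑ i, t i * w i p` at the primes, `|t i| ≤ 1`. -/

set_option autoImplicit false
open Filter Topology

namespace Pool.Agent.Helper79.KS

/-- completely multiplicative function with values `v p` at the primes -/
noncomputable def cm (v : ℕ → ℝ) (n : ℕ) : ℝ := (n.primeFactorsList.map v).prod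

/-- linear coefficient of a product over a list: one position has the weight `a`, all the others `b` -/
noncomputable def linL (b a : ℕ → ℝ) : List ℕ → ℝ
  | [] => 0
  | p :: l => b p * linL b a l + a p * (l.map b).prod

/-- linear coefficient at `n` -/
noncomputable def lin (b a : ℕ → ℝ) (n : ℕ) : ℝ := linL b a n.primeFactorsList

theorem linL_perm (b a : ℕ → ℝ) {l l' : List ℕ} (h : l.Perm l') : linL b a l = linL b a l' := by
  induction h with
  | nil => rfl
  | cons x h ih =>
    simp only [linL]
    rw [ih, (h.map b).prod_eq]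
  | swap x y l =>
    simp only [linL, List.map_cons, List.prod_cons]
    ring
  | trans _ _ ih1 ih2 => exact ih1.trans ih2

theorem cm_one (v : ℕ → ℝ) : cm v 1 = 1 := by simp [cm]

theorem cm_mul (v : ℕ → ℝ) {m n : ℕ} (hm : m ≠ 0) (hn : n ≠ 0) : cm v (m * n) = cm v m * cm v n := by
  unfold cm
  rw [((Nat.perm_primeFactorsList_mul hm hn).map v).prod_eq, List.map_append, List.prod_append]

theorem cm_prime (v : ℕ → ℝ) {p : ℕ} (hp : p.Prime) : cm v p = v p := by
  unfold cm
  rw [Nat.primeFactorsList_prime hp]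
  simp

theorem cm_nonneg {v : ℕ → ℝ} (hv : ∀ p, 0 ≤ v p) (n : ℕ) : 0 ≤ cm v n := by
  unfold cm
  apply List.prod_nonneg
  intro x hx
  rw [List.mem_map] at hx
  obtain ⟨p, _, rfl⟩ := hx
  exact hv p

theorem lin_mul (b a : ℕ → ℝ) {q m : ℕ} (hq : q.Prime) (hm : m ≠ 0) :
    lin b a (q * m) = b q * lin b a m + a q * cm b m := by
  unfold lin cm
  rw [linL_perm b a (Nat.perm_primeFactorsList_mul hq.ne_zero hm), Nat.primeFactorsList_prime hq]
  simp [linL]

theorem lin_prime (b a : ℕ → ℝ) {q : ℕ} (hq : q.Prime) : lin b a q = a q := by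
  have h := lin_mul b a hq one_ne_zero
  have h1 : lin b a 1 = 0 := by simp [lin, linL]
  rw [mul_one, h1, cm_one] at h
  linarith

/-! ### the list estimates -/

section ListEst

variable {b a ω x x' : ℕ → ℝ} {t t' D : ℝ}

theorem linL_nonneg (hb : ∀ p, 0 ≤ b p) (ha : ∀ p, 0 ≤ a p) (l : List ℕ) : 0 ≤ linL b a l := by
  induction l with
  | nil => simp [linL]
  | cons p l ih =>
    simp only [linL]
    have h1 : 0 ≤ (l.map b).prod := List.prod_nonneg (by
      intro y hy; rw [List.mem_map] at hy; obtain ⟨q, _, rfl⟩ := hy; exact hb q)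
    have := hb p
    have := ha p
    positivity

theorem lin_nonneg (hb : ∀ p, 0 ≤ b p) (ha : ∀ p, 0 ≤ a p) (n : ℕ) : 0 ≤ lin b a n :=
  linL_nonneg hb ha _

theorem lin_ge (hb : ∀ p, 0 ≤ b p) (ha : ∀ p, 0 ≤ a p) {q m : ℕ} (hq : q.Prime) (hm : m ≠ 0) :
    a q * cm b m ≤ lin b a (q * m) := by
  rw [lin_mul b a hq hm]
  have := mul_nonneg (hb q) (lin_nonneg hb ha m)
  linarith

/-- `P ≥ 0` -/
theorem prodb_nonneg (hb : ∀ p, 0 ≤ b p) (l : List ℕ) : 0 ≤ (l.map b).prod :=
  List.prod_nonneg (by intro y hy; rw [List.mem_map] at hy; obtain ⟨q, _, rfl⟩ := hy; exact hb q)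

theorem list_low (hb : ∀ p, 0 ≤ b p) (ha : ∀ p, 0 ≤ a p) (haω : ∀ p, a p ≤ ω p) (l : List ℕ) :
    (l.map b).prod + 2 * linL b a l ≤ (l.map (fun p => b p + 2 * ω p)).prod := by
  induction l with
  | nil => simp [linL]
  | cons p l ih =>
    simp only [linL, List.map_cons, List.prod_cons]
    have hP := prodb_nonneg hb l
    have hL := linL_nonneg hb ha l
    set P := (l.map b).prod
    set L := linL b a l
    set W := (l.map (fun p => b p + 2 * ω p)).prod
    have h1 := hb p
    have h2 := ha p
    have h3 := haω p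
    have h4 : b p * (P + 2 * L) ≤ b p * W := mul_le_mul_of_nonneg_left ih h1
    have h5 : a p * P ≤ ω p * W := mul_le_mul h3 (by linarith) hP (by linarith)
    nlinarith

theorem list_main (hb : ∀ p, 0 ≤ b p) (ha : ∀ p, 0 ≤ a p) (haω : ∀ p, a p ≤ ω p) (hD : 0 ≤ D)
    (hx : ∀ p, |x p| ≤ ω p) (hx' : ∀ p, |x' p| ≤ ω p) (hxx : ∀ p, |x p - x' p| ≤ D * ω p)
    (hyy : ∀ p, |(x p - t * a p) - (x' p - t' * a p)| ≤ D * (ω p - a p)) (l : List ℕ) :
    |(l.map (fun p => b p + x p)).prod - (l.map b).prod| ≤
        ((l.map (fun p => b p + 2 * ω p)).prod - (l.map b).prod) / 2 ∧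
      |(l.map (fun p => b p + x' p)).prod - (l.map b).prod| ≤
        ((l.map (fun p => b p + 2 * ω p)).prod - (l.map b).prod) / 2 ∧
      |(l.map (fun p => b p + x p)).prod - (l.map (fun p => b p + x' p)).prod| ≤
        D / 2 * ((l.map (fun p => b p + 2 * ω p)).prod - (l.map b).prod) ∧
      |((l.map (fun p => b p + x p)).prod - t * linL b a l) -
          ((l.map (fun p => b p + x' p)).prod - t' * linL b a l)| ≤
        D / 2 * ((l.map (fun p => b p + 2 * ω p)).prod - (l.map b).prod - 2 * linL b a l) := by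
  induction l with
  | nil => simp [linL]
  | cons p l ih =>
    simp only [linL, List.map_cons, List.prod_cons]
    have hP := prodb_nonneg hb l
    have hL := linL_nonneg hb ha l
    have hlow := list_low (ω := ω) hb ha haω l
    obtain ⟨i1, i2, i3, i4⟩ := ih
    set P := (l.map b).prod
    set L := linL b a l
    set W := (l.map (fun p => b p + 2 * ω p)).prod
    set F := (l.map (fun p => b p + x p)).prod
    set F' := (l.map (fun p => b p + x' p)).prod
    have hb1 := hb p
    have ha1 := ha p
    have hω1 : 0 ≤ ω p := ha1.trans (haω p)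
    have hx1 := hx p
    have hx1' := hx' p
    have hxx1 := hxx p
    have hyy1 := hyy p
    have hWP : 0 ≤ W - P := by linarith
    have hF : |F| ≤ (W + P) / 2 := by
      have := abs_sub_abs_le_abs_sub F P
      rw [abs_of_nonneg hP] at this
      linarith
    have hF' : |F'| ≤ (W + P) / 2 := by
      have := abs_sub_abs_le_abs_sub F' P
      rw [abs_of_nonneg hP] at this
      linarith
    have aux : ∀ (y G : ℝ), |y| ≤ ω p → |G - P| ≤ (W - P) / 2 → |G| ≤ (W + P) / 2 →
        |(b p + y) * G - b p * P| ≤ ((b p + 2 * ω p) * W - b p * P) / 2 := by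
      intro y G hy hG hG2
      have e1 : (b p + y) * G - b p * P = b p * (G - P) + y * G := by ring
      rw [e1]
      refine (abs_add_le _ _).trans ?_
      rw [abs_mul, abs_mul, abs_of_nonneg hb1]
      have h1 : b p * |G - P| ≤ b p * ((W - P) / 2) := mul_le_mul_of_nonneg_left hG hb1
      have h2 : |y| * |G| ≤ ω p * ((W + P) / 2) := mul_le_mul hy hG2 (abs_nonneg _) hω1
      have h3 : ω p * ((W + P) / 2) ≤ ω p * W := mul_le_mul_of_nonneg_left (by linarith) hω1
      nlinarith
    refine ⟨aux _ _ hx1 i1 hF, aux _ _ hx1' i2 hF', ?_, ?_⟩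
    · have e1 : (b p + x p) * F - (b p + x' p) * F' =
          b p * (F - F') + x p * (F - F') + (x p - x' p) * F' := by ring
      rw [e1]
      refine (abs_add_le _ _).trans ?_
      refine (add_le_add_left (abs_add_le _ _) _).trans ?_
      rw [abs_mul, abs_mul, abs_mul, abs_of_nonneg hb1]
      have h1 : b p * |F - F'| ≤ b p * (D / 2 * (W - P)) := mul_le_mul_of_nonneg_left i3 hb1
      have h2 : |x p| * |F - F'| ≤ ω p * (D / 2 * (W - P)) := mul_le_mul hx1 i3 (abs_nonneg _) hω1
      have h3 : |x p - x' p| * |F'| ≤ D * ω p * ((W + P) / 2) :=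
        mul_le_mul hxx1 hF' (abs_nonneg _) (by positivity)
      nlinarith
    · have e1 : ((b p + x p) * F - t * (b p * L + a p * P)) -
            ((b p + x' p) * F' - t' * (b p * L + a p * P)) =
          b p * ((F - t * L) - (F' - t' * L)) + (x p - x' p) * (F - P) + x' p * (F - F') +
            ((x p - t * a p) - (x' p - t' * a p)) * P := by ring
      rw [e1]
      refine (abs_add_le _ _).trans ?_
      refine (add_le_add_left (abs_add_le _ _) _).trans ?_
      refine (add_le_add_left (add_le_add_left (abs_add_le _ _) _) _).trans ?_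
      rw [abs_mul, abs_mul, abs_mul, abs_mul, abs_of_nonneg hb1, abs_of_nonneg hP]
      have h1 : b p * |F - t * L - (F' - t' * L)| ≤ b p * (D / 2 * (W - P - 2 * L)) :=
        mul_le_mul_of_nonneg_left i4 hb1
      have h2 : |x p - x' p| * |F - P| ≤ D * ω p * ((W - P) / 2) :=
        mul_le_mul hxx1 i1 (abs_nonneg _) (by positivity)
      have h3 : |x' p| * |F - F'| ≤ ω p * (D / 2 * (W - P)) :=
        mul_le_mul hx1' i3 (abs_nonneg _) hω1
      have h4 : |x p - t * a p - (x' p - t' * a p)| * P ≤ D * (ω p - a p) * P :=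
        mul_le_mul_of_nonneg_right hyy1 hP
      nlinarith

end ListEst

end Pool.Agent.Helper79.KS
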