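import Pool.Agent.Helper79.KS.Fix2

/-! STAR implies the frozen statement S17468. -/

set_option autoImplicit false
open Filter Topology

namespace Pool.Agent.Helper79.KS

theorem abs_cm_le {v W : ℕ → ℝ} (h : ∀ p, |v p| ≤ W p) (n : ℕ) : |cm v n| ≤ cm W n := by
  unfold cm
  induction n.primeFactorsList with
  | nil => simp
  | cons p l ih =>
    simp only [List.map_cons, List.prod_cons]
    rw [abs_mul]
    exact mul_le_mul (h p) ih (abs_nonneg _) ((abs_nonneg _).trans (h p))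

theorem cm_small {v : ℕ → ℝ} {N n : ℕ} (hv : ∀ p < N, v p = 0) (h2 : 2 ≤ n) (hn : n < N) : cm v n = 0 := by
  unfold cm
  apply List.prod_eq_zero
  rw [List.mem_map]
  have hp : n.minFac.Prime := Nat.minFac_prime (by omega)
  refine ⟨n.minFac, ?_, hv _ ((Nat.minFac_le (by omega)).trans_lt hn)⟩
  rw [Nat.mem_primeFactorsList (by omega)]
  exact ⟨hp, n.minFac_dvd⟩

/-- **The fixed point theorem.** -/
theorem exists_function (b : ℕ → ℝ) (w : ℕ → ℕ → ℝ) (a : ℕ → ℕ) (G : ℕ → ℝ)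
    (hb : ∀ p, 0 ≤ b p) (hw : ∀ i p, 0 ≤ w i p) (hsum : ∀ p, Summable (fun i => w i p))
    (ha0 : 2 ≤ a 0) (ha : StrictMono a) (hbs : ∀ p < a 0, b p = 0) (hws : ∀ i, ∀ p < a 0, w i p = 0)
    (hG : ∀ i, 0 < G i) (hG0 : 2 ≤ G 0)
    (hown : ∀ i, G i ≤ ∑ n ∈ Finset.Ico (a i) (a (i + 1)), lin b (w i) n)
    (hstar : ∀ i, ∑ n ∈ Finset.Ico (a i) (a (i + 1)), cm (fun p => b p + 2 * ∑' i, w i p) n ≤ 9 / 4 * G i) :
    ∃ v : ℕ → ℝ, ∀ i N : ℕ, 1 ≤ i → a i ≤ N → N < a (i + 1) →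
      |∑ n ∈ Finset.Icc 1 N, cm v n| ≤ 9 / 4 * G i := by
  obtain ⟨t, ht, hcell⟩ := exists_coeff b w a G (fun i => if i = 0 then -1 else 0) hb hw hsum hG hown hstar
    (fun i => by
      split_ifs with h
      · rw [h, abs_neg, abs_one]; linarith
      · rw [abs_zero]; linarith [hG i])
  refine ⟨val b w t, fun i N hi h1 h2 => ?_⟩
  have hv0 : ∀ p < a 0, val b w t p = 0 := fun p hp => by
    unfold val
    rw [hbs p hp]
    simp [hws _ p hp]
  have hsumi : ∀ i : ℕ, 1 ≤ i → ∑ n ∈ Finset.Ico 1 (a i), cm (val b w t) n = 0 := by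
    intro i hi
    induction i, hi using Nat.le_induction with
    | base =>
      rw [← Finset.sum_Ico_consecutive _ (show 1 ≤ a 0 by omega) (ha (show 0 < 1 by norm_num)).le]
      have e1 := hcell 0
      unfold cellSum at e1
      rw [zero_add] at e1
      rw [e1]
      rw [← Finset.sum_Ico_consecutive _ (show 1 ≤ 2 by norm_num) ha0]
      have e2 : ∑ n ∈ Finset.Ico 2 (a 0), cm (val b w t) n = 0 :=
        Finset.sum_eq_zero fun n hn => by
          rw [Finset.mem_Ico] at hn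
          exact cm_small hv0 hn.1 hn.2
      rw [e2]
      simp [cm_one]
    | succ i hi ih =>
      rw [← Finset.sum_Ico_consecutive _ (show 1 ≤ a i by
        have := ha.monotone (Nat.zero_le i); omega) (ha (Nat.lt_succ_self i)).le, ih]
      have e1 := hcell i
      unfold cellSum at e1
      rw [e1, if_neg (by omega)]
      simp
  have e3 : Finset.Icc 1 N = Finset.Ico 1 (N + 1) := by
    ext n; simp only [Finset.mem_Icc, Finset.mem_Ico]; omega
  have ha1 : 1 ≤ a i := by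
    have := ha.monotone (Nat.zero_le i); omega
  rw [e3, ← Finset.sum_Ico_consecutive _ ha1 (show a i ≤ N + 1 by omega), hsumi i hi, zero_add]
  have hvW : ∀ p, |val b w t p| ≤ b p + 2 * ∑' i, w i p := fun p => by
    unfold val
    refine (abs_add_le _ _).trans ?_
    rw [abs_of_nonneg (hb p)]
    have h3 := tsum_bound hw hsum ht p
    have h4 : 0 ≤ ∑' i, w i p := tsum_nonneg fun i => hw i p
    linarith
  calc |∑ n ∈ Finset.Ico (a i) (N + 1), cm (val b w t) n| ≤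
        ∑ n ∈ Finset.Ico (a i) (N + 1), |cm (val b w t) n| := Finset.abs_sum_le_sum_abs _ _
    _ ≤ ∑ n ∈ Finset.Ico (a i) (N + 1), cm (fun p => b p + 2 * ∑' i, w i p) n :=
        Finset.sum_le_sum fun n _ => abs_cm_le hvW n
    _ ≤ ∑ n ∈ Finset.Ico (a i) (a (i + 1)), cm (fun p => b p + 2 * ∑' i, w i p) n := by
        refine Finset.sum_le_sum_of_subset_of_nonneg ?_ fun n _ _ => ?_
        · exact Finset.Ico_subset_Ico le_rfl (by omega)
        · refine cm_nonneg (fun p => ?_) n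
          have h4 : 0 ≤ ∑' i, w i p := tsum_nonneg fun i => hw i p
          have := hb p
          linarith
    _ ≤ _ := hstar i

/-- **STAR implies S17468.** -/
theorem ks_of_star (b : ℕ → ℝ) (w : ℕ → ℕ → ℝ) (a : ℕ → ℕ) (G : ℕ → ℝ)
    (hb : ∀ p, 0 ≤ b p) (hw : ∀ i p, 0 ≤ w i p) (hsum : ∀ p, Summable (fun i => w i p))
    (ha0 : 2 ≤ a 0) (ha : StrictMono a) (hbs : ∀ p < a 0, b p = 0) (hws : ∀ i, ∀ p < a 0, w i p = 0)
    (hG : ∀ i, 0 < G i) (hG0 : 2 ≤ G 0)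
    (hown : ∀ i, G i ≤ ∑ n ∈ Finset.Ico (a i) (a (i + 1)), lin b (w i) n)
    (hstar : ∀ i, ∑ n ∈ Finset.Ico (a i) (a (i + 1)), cm (fun p => b p + 2 * ∑' i, w i p) n ≤ 9 / 4 * G i)
    (hdecay : Tendsto (fun i => G i * Real.sqrt (a (i + 1))) atTop (𝓝 0)) :
    ¬ (∀ f : ℕ → ℂ,
      f 1 = 1 →
      (∀ m n : ℕ, 0 < m → 0 < n → f (m * n) = f m * f n) →
      Tendsto (fun N : ℕ => ∑ n ∈ Finset.range N, f (n + 1)) atTop (𝓝 0) →
      ∃ c : ℝ, 0 < c ∧ ∀ M : ℕ, ∃ N : ℕ, M ≤ N ∧ 0 < N ∧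
        c / Real.sqrt (N : ℝ) ≤ ‖∑ n ∈ Finset.Icc 1 N, f n‖) := by
  intro hcon
  obtain ⟨v, hv⟩ := exists_function b w a G hb hw hsum ha0 ha hbs hws hG hG0 hown hstar
  -- location of `N`
  have hloc : ∀ I : ℕ, ∀ N : ℕ, a I ≤ N → ∃ i, I ≤ i ∧ a i ≤ N ∧ N < a (i + 1) := by
    intro I N hN
    have h1 : ∃ j, N < a j := ⟨N + 1, (Nat.lt_succ_self N).trans_le (ha.le_apply)⟩
    classical
    have h2 := Nat.find_spec h1
    have h3 : I < Nat.find h1 := by
      by_contra h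
      have := ha.monotone (not_lt.mp h)
      omega
    refine ⟨Nat.find h1 - 1, by omega, ?_, ?_⟩
    · have := Nat.find_min h1 (m := Nat.find h1 - 1) (by omega)
      omega
    · rwa [Nat.sub_add_cancel (by omega)]
  have hnorm : ∀ N : ℕ, ‖∑ n ∈ Finset.Icc 1 N, ((cm v n : ℝ) : ℂ)‖ = |∑ n ∈ Finset.Icc 1 N, cm v n| := by
    intro N
    rw [← Complex.ofReal_sum, Complex.norm_real, Real.norm_eq_abs]
  -- the bound
  have hbound : ∀ ε : ℝ, 0 < ε → ∃ M : ℕ, ∀ N : ℕ, M ≤ N → 0 < N →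
      ‖∑ n ∈ Finset.Icc 1 N, ((cm v n : ℝ) : ℂ)‖ * Real.sqrt N < ε := by
    intro ε hε
    have h1 := hdecay.eventually_lt_const (show (0 : ℝ) < ε / 3 by positivity)
    obtain ⟨I, hI⟩ := eventually_atTop.1 h1
    refine ⟨a (I + 1), fun N hN _ => ?_⟩
    obtain ⟨i, hi, h2, h3⟩ := hloc (I + 1) N hN
    rw [hnorm]
    have h4 := hv i N (by omega) h2 h3
    have h5 := hI i (by omega)
    have h6 : Real.sqrt N ≤ Real.sqrt (a (i + 1)) := Real.sqrt_le_sqrt (by exact_mod_cast h3.le)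
    calc |∑ n ∈ Finset.Icc 1 N, cm v n| * Real.sqrt N ≤ (9 / 4 * G i) * Real.sqrt (a (i + 1)) :=
          mul_le_mul h4 h6 (Real.sqrt_nonneg _) (by have := hG i; positivity)
      _ = 9 / 4 * (G i * Real.sqrt (a (i + 1))) := by ring
      _ < ε := by linarith
  obtain ⟨c, hc, hcN⟩ := hcon (fun n => ((cm v n : ℝ) : ℂ)) (by simp [cm_one])
    (fun m n hm hn => by rw [cm_mul v hm.ne' hn.ne']; push_cast; rfl) (by
      rw [Metric.tendsto_atTop]
      intro ε hε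
      obtain ⟨M, hM⟩ := hbound ε hε
      refine ⟨M + 1, fun N hN => ?_⟩
      have h1 := hM N (by omega) (by omega)
      have e1 : ∑ n ∈ Finset.range N, ((cm v (n + 1) : ℝ) : ℂ) = ∑ n ∈ Finset.Icc 1 N, ((cm v n : ℝ) : ℂ) := by
        rw [Finset.range_eq_Ico, Finset.sum_Ico_add' (fun n => ((cm v n : ℝ) : ℂ)) 0 N 1]
        refine Finset.sum_congr ?_ fun _ _ => rfl
        ext n; simp only [Finset.mem_Icc, Finset.mem_Ico]; omega
      rw [dist_zero_right, e1]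
      have h2 : 1 ≤ Real.sqrt N := by
        rw [Real.one_le_sqrt]
        exact_mod_cast (by omega : 1 ≤ N)
      exact (le_mul_of_one_le_right (norm_nonneg _) h2).trans_lt h1)
  obtain ⟨M, hM⟩ := hbound c hc
  obtain ⟨N, h1, h2, h3⟩ := hcN M
  have h4 := hM N h1 h2
  have h5 : 0 < Real.sqrt N := Real.sqrt_pos.mpr (by exact_mod_cast h2)
  rw [div_le_iff₀ h5] at h3
  exact absurd h3 (not_le.mpr h4)

end Pool.Agent.Helper79.KS
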