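import Pool.Agent.Helper16.KS.Final
import Pool.Agent.Helper79.KS.FP

/-! Module Last of project KS (decay of the partial sums) and the target from the inequality STAR. -/

set_option autoImplicit false
open scoped Classical
open Filter Topology

namespace Pool.Agent.Helper79.KS.LastM

open Pool.Agent.Helper16.KS
open Pool.Agent.Helper16.KS.Sys

variable (S : Sys)

theorem abs_fp_le (k0 : ℕ) (R : Set ℕ) {t : ℕ × ℕ → ℝ} (ht : ∀ i, |t i| ≤ 1) (p : ℕ) :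
    |S.fp k0 R t p| ≤ S.Wp k0 R p := by
  have h1 : |S.bR R p| = S.bR R p := abs_of_nonneg (S.bR_nonneg R p)
  have h2 : |t (S.cix k0 p) * S.ordw k0 p| ≤ S.ordw k0 p := by
    rw [abs_mul, abs_of_nonneg (S.ordw_nonneg k0 p)]
    exact mul_le_of_le_one_left (S.ordw_nonneg k0 p) (ht _)
  have h3 : |∑ k ∈ Finset.Ico k0 (top p), ∑ j ∈ S.badc k, t (k, j) * S.cw R k j p| ≤
      S.ctl k0 (top p) R p := by
    unfold ctl
    refine (Finset.abs_sum_le_sum_abs _ _).trans (Finset.sum_le_sum fun k _ => ?_)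
    refine (Finset.abs_sum_le_sum_abs _ _).trans (Finset.sum_le_sum fun j _ => ?_)
    rw [abs_mul, abs_of_nonneg (S.cw_nonneg R k j p)]
    exact mul_le_of_le_one_left (S.cw_nonneg R k j p) (ht _)
  have h4 := S.ordw_nonneg k0 p
  have h5 := S.ctl_nonneg k0 (top p) R p
  unfold fp Wp
  calc |S.bR R p + t (S.cix k0 p) * S.ordw k0 p +
        ∑ k ∈ Finset.Ico k0 (top p), ∑ j ∈ S.badc k, t (k, j) * S.cw R k j p|
      ≤ |S.bR R p + t (S.cix k0 p) * S.ordw k0 p| +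
        |∑ k ∈ Finset.Ico k0 (top p), ∑ j ∈ S.badc k, t (k, j) * S.cw R k j p| := abs_add_le _ _
    _ ≤ |S.bR R p| + |t (S.cix k0 p) * S.ordw k0 p| +
        |∑ k ∈ Finset.Ico k0 (top p), ∑ j ∈ S.badc k, t (k, j) * S.cw R k j p| := by
        have := abs_add_le (S.bR R p) (t (S.cix k0 p) * S.ordw k0 p)
        linarith
    _ ≤ _ := by linarith

theorem abs_ft_le (k0 : ℕ) (R : Set ℕ) {t : ℕ × ℕ → ℝ} (ht : ∀ i, |t i| ≤ 1) (n : ℕ) :
    |S.ft k0 R t n| ≤ S.W k0 R n := by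
  unfold ft W
  rw [abs_CM]
  exact CM_mono (fun p _ _ => abs_nonneg _) fun p _ _ => abs_fp_le S k0 R ht p

theorem W_nonneg' (k0 : ℕ) (R : Set ℕ) (n : ℕ) : 0 ≤ S.W k0 R n :=
  CM_nonneg fun p _ _ => S.Wp_nonneg k0 R p

theorem block_part {k : ℕ} {f : ℕ → ℝ} (h1 : ∀ j < nc S.d k, ∑ n ∈ cell S.d k j, f n = 0) :
    ∀ j ≤ nc S.d k, ∑ n ∈ Finset.Ico (2 ^ k) (2 ^ k + j * 2 ^ ec S.d k), f n = 0 := by
  intro j
  induction j with
  | zero => intro _; simp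
  | succ j ih =>
    intro hj
    have h2 := ih (by omega)
    have h3 := h1 j (by omega)
    unfold cell at h3
    rw [← Finset.sum_Ico_consecutive f (m := 2 ^ k) (n := 2 ^ k + j * 2 ^ ec S.d k)
      (k := 2 ^ k + (j + 1) * 2 ^ ec S.d k) (by omega) (by
        have h5 : (j + 1) * 2 ^ ec S.d k = j * 2 ^ ec S.d k + 2 ^ ec S.d k := by ring
        have h6 : 0 < 2 ^ ec S.d k := by positivity
        omega), h2, h3, add_zero]

theorem init_part {k0 : ℕ} {f : ℕ → ℝ} (h0 : ∑ n ∈ Finset.Ico 1 (2 ^ k0), f n = 0)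
    (h1 : ∀ k ≥ k0, ∀ j < nc S.d k, ∑ n ∈ cell S.d k j, f n = 0) :
    ∀ k ≥ k0, ∑ n ∈ Finset.Ico 1 (2 ^ k), f n = 0 := by
  intro k hk
  induction k, hk using Nat.le_induction with
  | base => exact h0
  | succ k hk ih =>
    have h2 := block_part S (h1 k hk) (nc S.d k) le_rfl
    rw [FPM.nc_mul S k] at h2
    have h3 : 2 ^ (k + 1) = 2 ^ k + 2 ^ k := by ring
    rw [h3, ← Finset.sum_Ico_consecutive f (m := 1) (n := 2 ^ k) (k := 2 ^ k + 2 ^ k)
      (Nat.one_le_two_pow) (Nat.le_add_right _ _), ih, h2, add_zero]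

theorem G_le (k : ℕ) (hk : 1 ≤ k) : S.G k ≤ (2 : ℝ) ^ (-(1/2 + S.d / 2) * (k : ℝ)) := by
  unfold G
  have hk1 : (1 : ℝ) ≤ k := by exact_mod_cast hk
  have h1 : (2 : ℝ) ^ ec S.d k ≤ (2 : ℝ) ^ ((k : ℝ) * (1/2 - S.d)) := by
    rw [← Real.rpow_natCast]
    apply Real.rpow_le_rpow_of_exponent_le (by norm_num)
    unfold ec
    apply Nat.floor_le
    have := S.d_le'
    have h2 : (0 : ℝ) ≤ 1/2 - S.d := by
      norm_num at this ⊢
      linarith
    positivity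
  have h2 : (2 : ℝ) ^ ((k : ℝ) * (1/2 - S.d)) * (2 : ℝ) ^ ((S.s - 1) * (k : ℝ)) =
      (2 : ℝ) ^ (-(1/2 + S.d / 2) * (k : ℝ)) := by
    rw [← Real.rpow_add (by norm_num)]
    congr 1
    unfold s
    ring
  have h3 : (0 : ℝ) ≤ (2 : ℝ) ^ ((S.s - 1) * (k : ℝ)) := Real.rpow_nonneg (by norm_num) _
  have h4 : (1 : ℝ) ≤ (k : ℝ) ^ 4 := one_le_pow₀ hk1
  calc (2 : ℝ) ^ ec S.d k * (2 : ℝ) ^ ((S.s - 1) * (k : ℝ)) / (k : ℝ) ^ 4
      ≤ (2 : ℝ) ^ ec S.d k * (2 : ℝ) ^ ((S.s - 1) * (k : ℝ)) := div_le_self (by positivity) h4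
    _ ≤ (2 : ℝ) ^ ((k : ℝ) * (1/2 - S.d)) * (2 : ℝ) ^ ((S.s - 1) * (k : ℝ)) :=
        mul_le_mul_of_nonneg_right h1 h3
    _ = _ := h2

theorem last : Last := by
  intro S k0 hk0 R hR hNN hst t ht h0 h1
  have ha1 : (0 : ℝ) < 1/2 + S.d / 2 := by
    have := S.d_pos
    linarith
  have ha2 : 1/2 + S.d / 2 ≤ 1 := by
    have := S.d_le'
    norm_num at this ⊢
    linarith
  set a : ℝ := 1/2 + S.d / 2 with ha
  have hG0 : 0 ≤ S.G0 k0 := (FPM.G0_pos S k0 hk0).le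
  have hgen : ∀ N : ℕ, ∀ L : ℕ, L ≤ k0 → 1 ≤ N → N < 2 ^ k0 → |∑ n ∈ Finset.Icc 1 N, S.ft k0 R t n| ≤
      (2 + 1/4) * S.G0 k0 := by
    intro N L _ hN1 hN
    refine (Finset.abs_sum_le_sum_abs _ _).trans ?_
    refine (Finset.sum_le_sum fun n _ => abs_ft_le S k0 R ht n).trans ?_
    refine le_trans (Finset.sum_le_sum_of_subset_of_nonneg ?_ fun n _ _ => W_nonneg' S k0 R n) hst.1
    intro n hn
    rw [Finset.mem_Icc] at hn
    rw [Finset.mem_Ico]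
    omega
  have hbig : ∀ N : ℕ, 2 ^ k0 ≤ N → |∑ n ∈ Finset.Icc 1 N, S.ft k0 R t n| ≤
      (2 + 1/4) * S.G (Nat.log 2 N) ∧ k0 ≤ Nat.log 2 N := by
    intro N hN
    have hN0 : N ≠ 0 := by
      have : 0 < 2 ^ k0 := by positivity
      omega
    have hk : k0 ≤ Nat.log 2 N := (Nat.le_log_iff_pow_le (by norm_num) hN0).2 hN
    refine ⟨?_, hk⟩
    have hc := S.mem_cell_idx hN0
    have hj := S.idx_lt N
    set k := Nat.log 2 N with hkdef
    set j := S.idx N with hjdef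
    have hc2 := mem_cell.1 hc
    have e1 : Finset.Icc 1 N = Finset.Ico 1 (N + 1) := by
      ext x
      rw [Finset.mem_Icc, Finset.mem_Ico]
      omega
    have h2 := init_part S h0 h1 k hk
    have h3 := block_part S (h1 k hk) j hj.le
    have hp : 1 ≤ 2 ^ k := Nat.one_le_two_pow
    rw [e1, ← Finset.sum_Ico_consecutive _ (m := 1) (n := 2 ^ k) (k := N + 1) hp (by omega), h2, zero_add,
      ← Finset.sum_Ico_consecutive _ (m := 2 ^ k) (n := 2 ^ k + j * 2 ^ ec S.d k) (k := N + 1) (by omega)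
        (by omega), h3, zero_add]
    refine (Finset.abs_sum_le_sum_abs _ _).trans ?_
    refine (Finset.sum_le_sum fun n _ => abs_ft_le S k0 R ht n).trans ?_
    refine le_trans (Finset.sum_le_sum_of_subset_of_nonneg ?_ fun n _ _ => W_nonneg' S k0 R n)
      (hst.2 k hk j hj)
    unfold cell
    exact Finset.Ico_subset_Ico_right (by omega)
  refine ⟨(2 + 1/4) * S.G0 k0 * 2 ^ k0 + (2 + 1/4) * 2, fun N hN => ?_⟩
  have hNr : (0 : ℝ) < N := by exact_mod_cast hN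
  have hNa : (0 : ℝ) < (N : ℝ) ^ (-a) := Real.rpow_pos_of_pos hNr _
  by_cases hN2 : N < 2 ^ k0
  · have h2 := hgen N k0 le_rfl hN hN2
    have h3 : (1 : ℝ) ≤ 2 ^ k0 * (N : ℝ) ^ (-a) := by
      have h4 : (N : ℝ) ^ (-1 : ℝ) ≤ (N : ℝ) ^ (-a) :=
        Real.rpow_le_rpow_of_exponent_le (by exact_mod_cast hN) (by linarith)
      rw [Real.rpow_neg_one] at h4
      have h5 : (N : ℝ) ≤ 2 ^ k0 := by exact_mod_cast hN2.le
      have h6 : (1 : ℝ) ≤ 2 ^ k0 * (N : ℝ)⁻¹ := by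
        rw [← div_eq_mul_inv, le_div_iff₀ hNr, one_mul]
        exact h5
      exact h6.trans (mul_le_mul_of_nonneg_left h4 (by positivity))
    have h7 : (2 + 1/4) * S.G0 k0 * 1 ≤ (2 + 1/4) * S.G0 k0 * (2 ^ k0 * (N : ℝ) ^ (-a)) :=
      mul_le_mul_of_nonneg_left h3 (by positivity)
    have h8 : 0 ≤ (2 + 1/4) * 2 * (N : ℝ) ^ (-a) := by positivity
    calc |∑ n ∈ Finset.Icc 1 N, S.ft k0 R t n| ≤ (2 + 1/4) * S.G0 k0 := h2
      _ ≤ (2 + 1/4) * S.G0 k0 * (2 ^ k0 * (N : ℝ) ^ (-a)) + (2 + 1/4) * 2 * (N : ℝ) ^ (-a) := by linarith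
      _ = ((2 + 1/4) * S.G0 k0 * 2 ^ k0 + (2 + 1/4) * 2) * (N : ℝ) ^ (-a) := by ring
  · obtain ⟨h2, h3⟩ := hbig N (by omega)
    set k := Nat.log 2 N with hkdef
    have h4 := G_le S k (by omega)
    have h5 : (2 : ℝ) ^ (-a * (k : ℝ)) ≤ 2 * (N : ℝ) ^ (-a) := by
      have h6 : N < 2 ^ (k + 1) := Nat.lt_pow_succ_log_self (by norm_num) N
      have h7 : (N : ℝ) ≤ (2 : ℝ) ^ ((k : ℝ) + 1) := by
        have : (N : ℝ) < ((2 ^ (k + 1) : ℕ) : ℝ) := by exact_mod_cast h6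
        rw [Nat.cast_pow, Nat.cast_ofNat, ← Real.rpow_natCast] at this
        push_cast at this
        exact this.le
      have h8 : ((2 : ℝ) ^ ((k : ℝ) + 1)) ^ (-a) ≤ (N : ℝ) ^ (-a) :=
        Real.rpow_le_rpow_of_nonpos hNr h7 (by linarith)
      rw [← Real.rpow_mul (by norm_num)] at h8
      have h9 : (2 : ℝ) ^ (-a * (k : ℝ)) = (2 : ℝ) ^ a * (2 : ℝ) ^ (((k : ℝ) + 1) * -a) := by
        rw [← Real.rpow_add (by norm_num)]
        congr 1
        ring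
      have h10 : (2 : ℝ) ^ a ≤ 2 := by
        have := Real.rpow_le_rpow_of_exponent_le (by norm_num : (1 : ℝ) ≤ 2) ha2
        rwa [Real.rpow_one] at this
      rw [h9]
      exact mul_le_mul h10 h8 (Real.rpow_nonneg (by norm_num) _) (by norm_num)
    have h11 : 0 ≤ (2 + 1/4) * S.G0 k0 * 2 ^ k0 * (N : ℝ) ^ (-a) := by positivity
    calc |∑ n ∈ Finset.Icc 1 N, S.ft k0 R t n| ≤ (2 + 1/4) * S.G k := h2
      _ ≤ (2 + 1/4) * (2 * (N : ℝ) ^ (-a)) := by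
        have := h4.trans h5
        linarith
      _ ≤ ((2 + 1/4) * S.G0 k0 * 2 ^ k0 + (2 + 1/4) * 2) * (N : ℝ) ^ (-a) := by linarith

/-- **the target from ExistsSys, ExistsGood, GoodStar** -/
theorem target' (hS : ExistsSys) (hG : ExistsGood) (hstar : GoodStar) : Target :=
  target hS hG hstar FPM.fp last

/-- **the target from STAR** -/
theorem target_of_star (S : Sys) (k0 : ℕ) (hk0 : 3 ≤ k0) (hK : S.K ≤ k0) (R : Set ℕ)
    (hp : ∀ r ∈ R, r.Prime) (hNN : ∀ k, k0 ≤ k → ∀ j ∈ S.badc k, 0 < S.NN R k j) (h : S.Star k0 R) :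
    Target := by
  obtain ⟨t, ht1, ht2, ht3⟩ := FPM.fp S k0 hk0 hK R hp hNN h
  obtain ⟨C, hC⟩ := last S k0 hk0 R hp hNN h t ht1 ht2 ht3
  have he : 0 < S.d / 2 := half_pos S.d_pos
  set e := S.d / 2 with hedef
  set f : ℕ → ℝ := S.ft k0 R t with hf
  have hf1 : f 1 = 1 := CM_one _
  have hfm : ∀ m n : ℕ, m ≠ 0 → n ≠ 0 → f (m * n) = f m * f n := fun m n hm hn => CM_mul _ hm hn
  intro hall
  have hcast : ∀ N : ℕ, ‖∑ n ∈ Finset.Icc 1 N, ((f n : ℝ) : ℂ)‖ = |∑ n ∈ Finset.Icc 1 N, f n| := by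
    intro N
    rw [← Complex.ofReal_sum, Complex.norm_real, Real.norm_eq_abs]
  have hlim : Tendsto (fun N : ℕ => C * (N : ℝ) ^ (-(1/2 + e))) atTop (𝓝 0) := by
    have h1 := (tendsto_rpow_neg_atTop (by linarith : (0 : ℝ) < 1/2 + e)).comp
      (tendsto_natCast_atTop_atTop (R := ℝ))
    simpa using h1.const_mul C
  obtain ⟨c, hc, hc2⟩ := hall (fun n => ((f n : ℝ) : ℂ)) (by simp [hf1])
    (fun m n hm hn => by simp only [hfm m n hm.ne' hn.ne']; push_cast; ring)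
    (by
      rw [tendsto_zero_iff_norm_tendsto_zero]
      refine squeeze_zero' (Eventually.of_forall fun N => norm_nonneg _)
        (eventually_atTop.mpr ⟨1, fun N hN => ?_⟩) hlim
      have h1 : ∑ n ∈ Finset.range N, ((f (n + 1) : ℝ) : ℂ) = ∑ n ∈ Finset.Icc 1 N, ((f n : ℝ) : ℂ) := by
        rw [Finset.range_eq_Ico, Finset.sum_Ico_add' (fun n => ((f n : ℝ) : ℂ)) 0 N 1]
        refine Finset.sum_congr ?_ fun _ _ => rfl
        ext x
        simp only [Finset.mem_Ico, Finset.mem_Icc]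
        omega
      rw [h1, hcast]
      exact hC N hN)
  have hlim2 : Tendsto (fun N : ℕ => C * (N : ℝ) ^ (-e)) atTop (𝓝 0) := by
    have h1 := (tendsto_rpow_neg_atTop he).comp (tendsto_natCast_atTop_atTop (R := ℝ))
    simpa using h1.const_mul C
  obtain ⟨M, hM⟩ := eventually_atTop.mp (hlim2.eventually (gt_mem_nhds hc))
  obtain ⟨N, hMN, hN0, hN⟩ := hc2 (max M 1)
  have hMN' : M ≤ N := (le_max_left _ _).trans hMN
  have h1 := hM N hMN'
  have hNr : (0 : ℝ) < N := by exact_mod_cast hN0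
  rw [hcast] at hN
  have h2 := hN.trans (hC N hN0)
  rw [div_le_iff₀ (Real.sqrt_pos.mpr hNr), Real.sqrt_eq_rpow, mul_assoc, ← Real.rpow_add hNr] at h2
  have h3 : -(1/2 + e) + 1/2 = -e := by ring
  rw [h3] at h2
  linarith

end Pool.Agent.Helper79.KS.LastM
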